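import Pool.Agent.Q30.VT6

namespace Pool.Agent.Results.MP_64528c_al.TreeFibering

open Q30.VT

universe u

/-- The fundamental group of a finite tree of fibered groups, whose edge groups are infinite
virtually cyclic and are virtual retracts of the adjacent vertex groups, is virtually fibered; the
same holds if the vertex groups are only virtually fibered. -/
theorem result (V : Type) [Finite V] (T : TreeOfGroups.{u} V) (h : T.EdgeCondition) :
    ((∀ v, IsFibered (T.G v)) → IsVirtuallyFibered T.π₁) ∧
    ((∀ v, IsVirtuallyFibered (T.G v)) → IsVirtuallyFibered T.π₁) :=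
  ⟨fun h1 => T.main (fun v => (h1 v).virtually) h.1 h.2, fun h1 => T.main h1 h.1 h.2⟩

end Pool.Agent.Results.MP_64528c_al.TreeFibering
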